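import Pool.Agent.H306Z.Wilf.Dim

/-! The extended Wilf inequality holds for every generalized numerical semigroup in `ℕ^d`,
`d ≥ 2`, and every monomial order with finitely many predecessors. -/

set_option autoImplicit false

namespace Pool.Agent.Results.MP_4a5405_co.AllDimTwoUp

/-- `lt` is (the strict relation of) a monomial order on `ℕ^d` in which every element has finitely
many predecessors. -/
structure IsAdmissibleOrder {d : ℕ} (lt : (Fin d → ℕ) → (Fin d → ℕ) → Prop) : Prop where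
  total : IsStrictTotalOrder (Fin d → ℕ) lt
  add : ∀ a b c, lt a b → lt (a + c) (b + c)
  zero_le : ∀ a, a = 0 ∨ lt 0 a
  finite_pred : ∀ a, {x | lt x a}.Finite

/-- The set `H(S)` of holes. -/
def holes {d : ℕ} (S : AddSubmonoid (Fin d → ℕ)) : Set (Fin d → ℕ) := {x | x ∉ S}

/-- The minimal generating set `G(S)`: the nonzero elements of `S` that are not a sum of two
nonzero elements of `S`. -/
def minGens {d : ℕ} (S : AddSubmonoid (Fin d → ℕ)) : Set (Fin d → ℕ) :=
  {g | g ∈ S ∧ g ≠ 0 ∧ ∀ a ∈ S, ∀ b ∈ S, a + b = g → a = 0 ∨ b = 0}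

/-- `F` is the Frobenius element `Fb(S)`: the largest hole for the order `lt`. -/
def IsFrobeniusElement {d : ℕ} (lt : (Fin d → ℕ) → (Fin d → ℕ) → Prop)
    (S : AddSubmonoid (Fin d → ℕ)) (F : Fin d → ℕ) : Prop :=
  F ∈ holes S ∧ ∀ h ∈ holes S, h = F ∨ lt h F

/-- The elements of `S` that precede `F`. -/
def smallElements {d : ℕ} (lt : (Fin d → ℕ) → (Fin d → ℕ) → Prop)
    (S : AddSubmonoid (Fin d → ℕ)) (F : Fin d → ℕ) : Set (Fin d → ℕ) :=
  {x | x ∈ S ∧ lt x F}

/-- For `d ≥ 2`: `n(S) e(S) ≥ (n(S) + g(S)) + 1`. -/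
theorem result (d : ℕ) (hd : 2 ≤ d) (S : AddSubmonoid (Fin d → ℕ)) (_hS : (holes S).Finite)
    (lt : (Fin d → ℕ) → (Fin d → ℕ) → Prop) (hlt : IsAdmissibleOrder lt)
    (F : Fin d → ℕ) (hF : IsFrobeniusElement lt S F) :
    ((smallElements lt S F).ncard + (holes S).ncard) + 1 ≤
      (smallElements lt S F).ncard * (minGens S).ncard :=
  Pool.Agent.H306Z.Wilf.extended d hd lt hlt.total hlt.add hlt.zero_le hlt.finite_pred S F hF.1
    hF.2

end Pool.Agent.Results.MP_4a5405_co.AllDimTwoUp
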